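import Mathlib

/-!
# Fixed closures in `ℤ^m × F_n`: the answer for all `m ≥ 1` and all `n`

Let `A` be any group with a central element `z` of infinite order and let `F` be a free group on a
(possibly infinite) set `X` with at least two elements `i ≠ j`; write `a`, `b` for the
corresponding generators.  The subgroup `H` of `A × F` generated by `b`, `a b a⁻¹`, `a⁻¹ b a` is
finitely generated, but no subgroup between its endo-fixed closure and its auto-fixed closure is.
-/

set_option autoImplicit false

namespace Pool.Agent.Results.MP_d3e052_al.AllRanks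

open FreeGroup Filter

/-- The group `ℤ^m × F_n`. -/
abbrev FATF (m n : ℕ) : Type := Multiplicative (Fin m → ℤ) × FreeGroup (Fin n)

/-- The elements fixed by every member of a set of endomorphisms. -/
def Fix {G : Type*} [Group G] (S : Set (G →* G)) : Subgroup G where
  carrier := {g | ∀ φ ∈ S, φ g = g}
  one_mem' := fun φ _ => map_one φ
  mul_mem' := fun {x y} hx hy φ hφ => by rw [_root_.map_mul, hx φ hφ, hy φ hφ]
  inv_mem' := fun {x} hx φ hφ => by rw [_root_.map_inv, hx φ hφ]

/-- The auto-fixed closure: the elements fixed by every automorphism that fixes `H` pointwise. -/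
def aCl {G : Type*} [Group G] (H : Subgroup G) : Subgroup G :=
  Fix {φ : G →* G | Function.Bijective φ ∧ ∀ h ∈ H, φ h = h}

/-- The endo-fixed closure: the elements fixed by every endomorphism that fixes `H` pointwise. -/
def eCl {G : Type*} [Group G] (H : Subgroup G) : Subgroup G :=
  Fix {φ : G →* G | ∀ h ∈ H, φ h = h}

theorem eCl_le_aCl {G : Type*} [Group G] (H : Subgroup G) : eCl H ≤ aCl H :=
  fun _ hg φ hφ => hg φ hφ.2

lemma cent {α : Type*} [DecidableEq α] (i : α) : ∀ L : List (α × Bool), IsReduced L →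
    Commute (mk L) (of i) → mk L ∈ Subgroup.zpowers (of i)
  | [], _, _ => one_mem _
  | (x, s) :: L, hL, h => by
    by_cases e : x = i
    · subst e
      have h1 : mk [(x, s)] ∈ Subgroup.zpowers (of x) := by
        cases s
        · exact inv_mem (Subgroup.mem_zpowers (of x))
        exact Subgroup.mem_zpowers _
      obtain ⟨k, hk⟩ := h1
      have h2 : mk ((x, s) :: L) = of x ^ k * mk L := by
        rw [show of x ^ k = _ from hk, mul_mk]; rfl
      rw [h2] at h ⊢
      refine mul_mem ⟨k, rfl⟩ (cent x L (List.IsChain.tail hL) ?_)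
      simpa using ((Commute.refl (of x)).zpow_left k).inv_left.mul_left h
    have h1 : IsReduced ((i, true) :: (x, s) :: L) :=
      List.isChain_cons_cons.mpr ⟨fun h => absurd h.symm e, hL⟩
    have h2 : reduce ((x, s) :: L ++ [(i, true)]) = (i, true) :: (x, s) :: L :=
      (reduce.sound h.eq).trans h1.reduce_eq
    have h3 := (h2 ▸ Red.sublist (reduce.red (L := (x, s) :: L ++ [(i, true)]))).eq_of_length
      (by simp)
    simp only [List.cons_append, List.cons.injEq, Prod.mk.injEq] at h3
    exact absurd h3.1.1.symm e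

section
variable {X : Type*} [DecidableEq X] {i j : X}

lemma rigid (hij : i ≠ j) (u : FreeGroup X) (h1 : u * of j * u⁻¹ = of i * of j * (of i)⁻¹)
    (h2 : u⁻¹ * of j * u = (of i)⁻¹ * of j * of i) : u = of i := by
  have key (v : FreeGroup X) (h : Commute v (of j)) : ∃ k : ℤ, of j ^ k = v := by
    rw [← mk_toWord (x := v)] at h ⊢
    exact cent _ _ isReduced_toWord h
  obtain ⟨k, hk⟩ := key ((of i)⁻¹ * u) (by
    rw [Commute, SemiconjBy]
    calc _ = (of i)⁻¹ * (u * of j * u⁻¹) * u := by group
      _ = _ := by rw [h1]; group)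
  obtain ⟨l, hl⟩ := key (u * (of i)⁻¹) (by
    rw [Commute, SemiconjBy]
    calc _ = u * ((of i)⁻¹ * of j * of i) * (of i)⁻¹ := by group
      _ = _ := by rw [← h2]; group)
  have h3 : of i * of j ^ k = of j ^ l * of i := by rw [hk, hl]; group
  let f : FreeGroup X →* Equiv.Perm (ℤ × ℤ) :=
    lift (fun t => if t = i then Equiv.prodComm _ _ else Equiv.addRight (1, 0))
  have h4 := congrArg (fun w => (f w (0, 0)).2) h3
  simp [f, hij.symm] at h4
  rw [h4, zpow_zero] at hk
  exact (inv_mul_eq_one.mp hk.symm).symm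

/-- Exponent sum in the generator `i`. -/
def ex (i : X) : FreeGroup X →* Multiplicative ℤ :=
  lift (fun t => if t = i then .ofAdd 1 else 1)

/-- `i` shifts, `j` is a transposition, all other generators act trivially. -/
def pm (i j : X) : FreeGroup X →* Equiv.Perm ℤ :=
  lift (fun t => if t = i then Equiv.addRight 1 else if t = j then Equiv.swap 0 1 else 1)

lemma ev (i j : X) (w : FreeGroup X) :
    ∀ᶠ x in cofinite, pm i j w x = x + (ex i w).toAdd := by
  have h0 : ∀ᶠ x : ℤ in cofinite, Equiv.swap 0 1 x = x := by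
    filter_upwards [eventually_cofinite_ne 0, eventually_cofinite_ne 1] with x h1 h2
    exact Equiv.swap_apply_of_ne_of_ne h1 h2
  induction w with
  | C1 => simp
  | of t =>
    by_cases h1 : t = i
    · simp [pm, ex, h1]
    by_cases h2 : t = j
    · simpa [pm, ex, h1, h2] using (by simpa [h2 ▸ h1] using h0)
    · simp [pm, ex, h1, h2]
  | inv_of t _ =>
    by_cases h1 : t = i
    · simp [pm, ex, h1]
    by_cases h2 : t = j
    · simpa [pm, ex, h1, h2] using (by simpa [h2 ▸ h1] using h0)
    · simp [pm, ex, h1, h2]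
  | mul v w hv hw =>
    filter_upwards [hw, (add_left_injective ((ex i w).toAdd)).tendsto_cofinite.eventually hv]
      with x h1 h2
    rw [_root_.map_mul, _root_.map_mul, Equiv.Perm.mul_apply, h1, h2, toAdd_mul]
    ring

/-- The automorphism `(c, w) ↦ (c z ^ (exponent sum of i in w), w)`. -/
def tw {A : Type*} [Group A] (z : A) (hz : ∀ c : A, c * z = z * c) (i : X) :
    A × FreeGroup X →* A × FreeGroup X where
  toFun g := (g.1 * z ^ (ex i g.2).toAdd, g.2)
  map_one' := by simp
  map_mul' g h := by
    have hc : ∀ (c : A) (k : ℤ), z ^ k * c = c * z ^ k := fun c k =>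
      ((show Commute z c from (hz c).symm).zpow_left k).eq
    ext1
    · simp only [Prod.fst_mul, Prod.snd_mul, _root_.map_mul, toAdd_mul, zpow_add]
      rw [mul_assoc, mul_assoc, ← mul_assoc h.1, ← hc h.1, mul_assoc]
    · rfl

lemma tw_bij {A : Type*} [Group A] (z : A) (hz : ∀ c : A, c * z = z * c) (i : X) :
    Function.Bijective (tw z hz i) := by
  refine Function.bijective_iff_has_inverse.2
    ⟨fun g => (g.1 * (z ^ (ex i g.2).toAdd)⁻¹, g.2), ?_, ?_⟩
  · intro g; simp [tw]
  · intro g; simp [tw]

/-- The subgroup generated by `b`, `a b a⁻¹`, `a⁻¹ b a`. -/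
def H (A : Type*) [Group A] (i j : X) : Subgroup (A × FreeGroup X) :=
  Subgroup.closure {(1, of j), (1, of i * of j * (of i)⁻¹), (1, (of i)⁻¹ * of j * of i)}

lemma not_fg {A : Type*} [Group A] (z : A) (hz : ∀ c : A, c * z = z * c)
    (hz' : ∀ k : ℤ, z ^ k = 1 → k = 0) (hij : i ≠ j) (K : Subgroup (A × FreeGroup X))
    (h1 : eCl (H A i j) ≤ K) (h2 : K ≤ aCl (H A i j)) : ¬ K.FG := by
  intro hK
  obtain ⟨S, hS, hf⟩ := (Subgroup.fg_iff K).mp hK
  have h3 : ∀ᶠ x in cofinite, ∀ g ∈ S, pm i j g.2 x = x := by
    refine (eventually_all_finite hf).mpr fun g hg => ?_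
    have h4 := h2 (hS ▸ Subgroup.subset_closure hg)
    have h5 : g.1 * z ^ (ex i g.2).toAdd = g.1 := congrArg Prod.fst (h4 (tw z hz i)
      ⟨tw_bij z hz i, fun h hh => by
        have : H A i j ≤ Fix {tw z hz i} := by
          rw [H, Subgroup.closure_le]
          rintro g hg φ hφ
          rw [Set.mem_singleton_iff.1 hφ]
          rcases hg with rfl | rfl | rfl <;> simp [tw, ex, hij.symm]
        exact this hh _ rfl⟩)
    have h6 := hz' _ (mul_eq_left.mp h5)
    have h7 := ev i j g.2
    rw [h6] at h7
    simpa using h7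
  obtain ⟨x, hx⟩ := h3.exists
  have h4 : ((1, of i ^ x * of j * (of i ^ x)⁻¹) : A × FreeGroup X) ∈ K := h1 <| by
    intro φ hφ
    have e (w : FreeGroup X) : ((1, w) : A × FreeGroup X) = MonoidHom.inr A (FreeGroup X) w := rfl
    have k1 := hφ (1, of j) (Subgroup.subset_closure (by simp))
    have k2 := hφ (1, of i * of j * (of i)⁻¹) (Subgroup.subset_closure (by simp))
    have k3 := hφ (1, (of i)⁻¹ * of j * of i) (Subgroup.subset_closure (by simp))
    simp only [e, _root_.map_mul, _root_.map_inv] at k1 k2 k3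
    rw [k1] at k2 k3
    have k4 := rigid hij _ (congrArg Prod.snd k2) (congrArg Prod.snd k3)
    simp only [e, _root_.map_mul, _root_.map_inv, _root_.map_zpow, k1]
    ext
    · simp
    simp only [Prod.snd_mul, Prod.snd_inv, Prod.pow_snd, k4]
    rfl
  have h5 : K ≤ (MulAction.stabilizer (Equiv.Perm ℤ) x).comap
      ((pm i j).comp (MonoidHom.snd A (FreeGroup X))) :=
    hS ▸ (Subgroup.closure_le _).mpr hx
  have h6 : pm i j (of i ^ x * of j * (of i ^ x)⁻¹) x = x := h5 h4
  simp [pm, hij.symm] at h6

end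

/-- For `n ≤ 1` every subgroup of `ℤ^m × F_n` is finitely generated. -/
lemma fg_of_le_one (m n : ℕ) (hn : n ≤ 1) (K : Subgroup (FATF m n)) : K.FG := by
  obtain ⟨g, hg⟩ : ∃ g : FreeGroup (Fin n), ∀ x, x ∈ Subgroup.zpowers g := by
    have h1 : Subgroup.closure (Set.range (of : Fin n → FreeGroup (Fin n))) = ⊤ :=
      closure_range_of _
    interval_cases n
    · refine ⟨1, fun x => ?_⟩
      rw [Subsingleton.elim x 1]
      exact one_mem _
    · refine ⟨of 0, fun x => ?_⟩
      have h2 : Set.range (of : Fin 1 → FreeGroup (Fin 1)) = {of 0} := by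
        ext y
        simp [Fin.exists_fin_one, eq_comm]
      rw [h2, ← Subgroup.zpowers_eq_closure] at h1
      rw [h1]; trivial
  let f : Multiplicative ((Fin m → ℤ) × ℤ) →* FATF m n :=
    { toFun := fun x => (Multiplicative.ofAdd (Multiplicative.toAdd x).1,
        g ^ (Multiplicative.toAdd x).2)
      map_one' := by simp
      map_mul' := fun x y => by
        ext1
        · simp
        · simp [zpow_add] }
  have hf : Function.Surjective f := by
    rintro ⟨u, w⟩
    obtain ⟨k, hk⟩ := hg w
    exact ⟨Multiplicative.ofAdd (Multiplicative.toAdd u, k), Prod.ext rfl hk⟩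
  have h1 : (K.comap f).FG := by
    have h2 : (Subgroup.toAddSubgroup' (K.comap f)).FG := by
      have := (Submodule.fg_iff_addSubgroup_fg
        (AddSubgroup.toIntSubmodule (Subgroup.toAddSubgroup' (K.comap f)))).1
        (IsNoetherian.noetherian _)
      simpa using this
    exact (AddSubgroup.fg_iff_mul_fg _).1 h2
  have h3 : K = (K.comap f).map f := (Subgroup.map_comap_eq_self_of_surjective hf K).symm
  obtain ⟨S, hS, hfin⟩ := (Subgroup.fg_iff _).1 h1
  rw [h3, ← hS]
  exact (Subgroup.fg_iff _).2 ⟨f '' S, (MonoidHom.map_closure f S).symm, hfin.image f⟩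

/-- **Theorem.** (1) Let `A` be a group with a central element of infinite order and let `X` be a
set with two different elements.  Then `A × F(X)` has a subgroup `H` generated by three elements
such that no subgroup between the endo-fixed closure and the auto-fixed closure of `H` (in
particular none of the two closures) is finitely generated.

(2) For `m ≥ 1` and all `n`: the auto-fixed closures of all finitely generated subgroups of
`ℤ^m × F_n` are finitely generated if and only if `n ≤ 1`, and the same holds for the endo-fixed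
closures. -/
theorem result :
    (∀ (A : Type) [Group A] (z : A), (∀ c : A, c * z = z * c) → (∀ k : ℤ, z ^ k = 1 → k = 0) →
      ∀ (X : Type) (i j : X), i ≠ j → ∃ g₁ g₂ g₃ : A × FreeGroup X,
        ∀ K : Subgroup (A × FreeGroup X), eCl (Subgroup.closure {g₁, g₂, g₃}) ≤ K →
          K ≤ aCl (Subgroup.closure {g₁, g₂, g₃}) → ¬ K.FG) ∧
    (∀ m n : ℕ, 1 ≤ m →
      ((∀ H : Subgroup (FATF m n), H.FG → (aCl H).FG) ↔ n ≤ 1) ∧
      ((∀ H : Subgroup (FATF m n), H.FG → (eCl H).FG) ↔ n ≤ 1)) := by
  classical
  refine ⟨fun A _ z hz hz' X i j hij => ⟨_, _, _, not_fg z hz hz' hij⟩, fun m n hm => ?_⟩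
  have key : ¬ n ≤ 1 → ∃ H : Subgroup (FATF m n), H.FG ∧ ¬ (aCl H).FG ∧ ¬ (eCl H).FG := by
    intro hn
    have hij : (⟨0, by omega⟩ : Fin n) ≠ ⟨1, by omega⟩ := by simp
    have hz' : ∀ k : ℤ, (Multiplicative.ofAdd (fun _ : Fin m => (1 : ℤ))) ^ k = 1 → k = 0 := by
      intro k hk
      have := congrFun (congrArg Multiplicative.toAdd hk) ⟨0, hm⟩
      simpa using this
    have h := not_fg (Multiplicative.ofAdd (fun _ : Fin m => (1 : ℤ))) (fun c => mul_comm _ _)
      hz' hij
    exact ⟨H _ _ _, (Subgroup.fg_iff _).2 ⟨_, rfl, Set.toFinite _⟩,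
      h _ (eCl_le_aCl _) le_rfl, h _ le_rfl (eCl_le_aCl _)⟩
  constructor
  · refine ⟨fun h => ?_, fun hn H _ => fg_of_le_one m n hn _⟩
    by_contra hn
    obtain ⟨H, h1, h2, _⟩ := key hn
    exact h2 (h H h1)
  · refine ⟨fun h => ?_, fun hn H _ => fg_of_le_one m n hn _⟩
    by_contra hn
    obtain ⟨H, h1, _, h2⟩ := key hn
    exact h2 (h H h1)

end Pool.Agent.Results.MP_d3e052_al.AllRanks
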